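import Pool.Agent.helper27.HK.Simple

/-!
# The value at one of the equivariant phi-series is a positive integer

`G` is a finite group acting linearly on `ℤ^n`, `P ⊂ ℝ^n` is a `G`-invariant lattice polytope of any
dimension, `M` is the lattice of the integer vectors parallel to the affine span of `P`, `g ∈ G`,
and `P^g` is the set of the points of `P` fixed by `g`. Then `(dim P^g)! vol(P^g) D(g) / ind(P^g)`
is a positive integer, where `D(g)` is the product of `1 - lam` over the eigenvalues `lam ≠ 1` of `g`
on `M`. Here `a` is any basis of `M`, `R` is the matrix of `g` on `M` in this basis, and the relative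
volume is computed in the coordinates of any basis `b` of the lattice of the integer vectors
parallel to the affine span of `P^g`. Such `a`, `R` and `b` exist.
-/

set_option autoImplicit false

namespace Pool.Agent.Results.MP_c81765_co.PhiAtOne

open Pool.Agent.HK

theorem result {n : ℕ} {G : Type*} [Group G] [Finite G] (ρ : G →* Matrix (Fin n) (Fin n) ℤ)
    (P : Set (Fin n → ℝ)) (hP : IsLatticePolytope P) (hG : ∀ h : G, act (ρ h) '' P = P)
    (g : G) (A : Matrix (Fin n) (Fin n) ℤ) (hA : A = ρ g) :
    (fixedPart A P).Nonempty ∧ 0 < index (fixedPart A P) ∧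
    (∃ (e : ℕ) (a : Fin e → Fin n → ℤ) (R : Matrix (Fin e) (Fin e) ℤ),
      IsLatticeBasis P a ∧ IsMatrixOn A a R) ∧
    (∃ (d : ℕ) (b : Fin d → Fin n → ℤ), IsLatticeBasis (fixedPart A P) b) ∧
    ∀ (e : ℕ) (a : Fin e → Fin n → ℤ) (R : Matrix (Fin e) (Fin e) ℤ),
      IsLatticeBasis P a → IsMatrixOn A a R →
      ∀ (d : ℕ) (b : Fin d → Fin n → ℤ), IsLatticeBasis (fixedPart A P) b →
      ∀ x₀ ∈ fixedPart A P,
        dimension (fixedPart A P) = d ∧
          ∃ N : ℕ, 0 < N ∧ phiOne (fixedPart A P) b x₀ R = (N : ℂ) := by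
  subst hA
  have h1 : ρ g ^ Nat.card G = 1 := by
    rw [← map_pow, pow_card_eq_one', map_one]
  exact simple (ρ g) (Nat.card G) Nat.card_pos h1 P hP (hG g)

end Pool.Agent.Results.MP_c81765_co.PhiAtOne
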